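import Mathlib
import Pool.Agent.H82.AS.Targets

/-!
# EUL: the Euler product of the singular series
-/

set_option autoImplicit false

open Pool.Agent.H38.RB Pool.Agent.H38.PS Pool.Agent.H82.AS

namespace Pool.Agent.H83.AS.EUL

/-- `n ↦ 1 / n ^ 2` as a homomorphism -/
noncomputable def isq : ℕ →*₀ ℝ where
  toFun n := ((n : ℝ) ^ 2)⁻¹
  map_zero' := by simp
  map_one' := by simp
  map_mul' m n := by push_cast; rw [mul_pow, mul_inv]

theorem kp_one_ne (hKPE : T_KPE) : kp 1 ≠ 0 := by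
  have h1 := hKPE.1
  have hs : Summable (fun n : ℕ => ‖isq n‖) := by
    have : (fun n : ℕ => ‖isq n‖) = fun n : ℕ => 1 / (n : ℝ) ^ 2 := by
      funext n
      change ‖((n : ℝ) ^ 2)⁻¹‖ = _
      rw [Real.norm_of_nonneg (by positivity), one_div]
    rw [this]
    exact Real.summable_one_div_nat_pow.mpr (by norm_num)
  have h2 := EulerProduct.eulerProduct_completely_multiplicative_hasProd (f := isq) hs
  have h3 := h1.mul h2
  have h4 : (fun p : Nat.Primes => (1 - 1 / ((p : ℕ) : ℝ) ^ 2) * (1 - isq p)⁻¹) =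
      fun _ => (1 : ℝ) := by
    funext p
    change (1 - 1 / ((p : ℕ) : ℝ) ^ 2) * (1 - (((p : ℕ) : ℝ) ^ 2)⁻¹)⁻¹ = 1
    have hp : (2 : ℝ) ≤ ((p : ℕ) : ℝ) := by exact_mod_cast p.2.two_le
    rw [one_div]
    apply mul_inv_cancel₀
    have : (((p : ℕ) : ℝ) ^ 2)⁻¹ < 1 := by
      apply inv_lt_one_of_one_lt₀
      nlinarith
    linarith
  rw [h4] at h3
  have h5 := h3.unique hasProd_one
  intro h0
  rw [h0, zero_mul] at h5
  exact one_ne_zero h5.symm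

/-- the multiplicative function `Sr D / kp 1` -/
noncomputable def hh (D : ℕ) : ℝ := w3 D * Gx D * (∏ p ∈ D.primeFactors, (p : ℝ) / (p + 1)) / D

theorem hh_zero : hh 0 = 0 := by simp [hh]

theorem hh_one (hGXE : T_GXE) : hh 1 = 1 := by simp [hh, w3, hGXE.1]

theorem hh_mul (hGXE : T_GXE) {m n : ℕ} (h : m.Coprime n) : hh (m * n) = hh m * hh n := by
  have h1 : (m * n).primeFactors = m.primeFactors ∪ n.primeFactors := h.primeFactors_mul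
  have h2 : Disjoint m.primeFactors n.primeFactors := h.disjoint_primeFactors
  unfold hh w3
  rw [h1, Finset.card_union_of_disjoint h2, Finset.prod_union h2, hGXE.2.1 m n h, pow_add]
  push_cast
  rw [div_mul_div_comm]
  ring

theorem Sr_eq (hKPE : T_KPE) (D : ℕ) : Sr D = kp 1 * hh D := by
  rcases Nat.eq_zero_or_pos D with h0 | h0
  · subst h0
    simp [Sr, hh]
  · unfold Sr hh
    rw [hKPE.2 D h0]
    ring

theorem vpow (p : ℕ) (x : ℝ) (n : ℕ) (hx : x = (n : ℝ) / 3) :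
    (p : ℝ) ^ x = ((p : ℝ) ^ (1 / 3 : ℝ)) ^ n := by
  rw [← Real.rpow_natCast, ← Real.rpow_mul (Nat.cast_nonneg p), hx]
  congr 1
  ring

theorem hh_prime_pow (hGXE : T_GXE) (p : ℕ) (hp : p.Prime) (a : ℕ) : hh (p ^ (a + 2)) =
    3 * (((p : ℝ) ^ (1 / 3 : ℝ)) ^ 2 - 1) / ((((p : ℝ) ^ (1 / 3 : ℝ)) ^ 3 + 1) *
      ((p : ℝ) ^ (1 / 3 : ℝ)) ^ 3) * (((p : ℝ) ^ (1 / 3 : ℝ))⁻¹) ^ a := by
  have hp0 : (0 : ℝ) < p := by exact_mod_cast hp.pos
  have hv0 : 0 < (p : ℝ) ^ (1 / 3 : ℝ) := Real.rpow_pos_of_pos hp0 _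
  have h1 : (p ^ (a + 2)).primeFactors = {p} := Nat.primeFactors_prime_pow (by omega) hp
  have hv : ((p : ℝ) ^ (1 / 3 : ℝ)) ^ 3 = p := by
    rw [← vpow p 1 3 (by norm_num), Real.rpow_one]
  have e1 : (p : ℝ) ^ (2 * ((a : ℝ) + 1) / 3) = ((p : ℝ) ^ (1 / 3 : ℝ)) ^ (2 * (a + 1)) := by
    apply vpow
    push_cast
    ring
  have e2 : (p : ℝ) ^ (2 * (a : ℝ) / 3) = ((p : ℝ) ^ (1 / 3 : ℝ)) ^ (2 * a) := by
    apply vpow
    push_cast
    ring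
  unfold hh w3
  rw [h1, (hGXE.2.2 p hp).2 a, e1, e2, Finset.card_singleton, Finset.prod_singleton]
  set v := (p : ℝ) ^ (1 / 3 : ℝ) with hvd
  push_cast
  rw [← hv]
  have hv1 : v ≠ 0 := hv0.ne'
  have hv3 : v ^ 3 + 1 ≠ 0 := by positivity
  rw [← pow_mul, inv_pow]
  field_simp
  ring

theorem pf_EUL (hKPE : T_KPE) (hGXE : T_GXE) (hCVG : T_CVG) : T_EUL := by
  have hk := kp_one_ne hKPE
  have hsum : Summable hh := by
    have h1 := hCVG.1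
    have h2 : Sr = fun D => kp 1 * hh D := funext (Sr_eq hKPE)
    rw [h2] at h1
    exact (summable_mul_left_iff hk).mp h1
  have hS : ∑' D : ℕ, Sr D = kp 1 * ∑' D : ℕ, hh D := by
    rw [← tsum_mul_left]
    exact tsum_congr (Sr_eq hKPE)
  have hprod := EulerProduct.eulerProduct_hasProd (f := hh) (hh_one hGXE)
    (fun {m n} h => hh_mul hGXE h) hsum.norm hh_zero
  have hmul := hKPE.1.mul hprod
  unfold T_EUL
  rw [hS]
  convert hmul using 1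
  funext p
  have hpp := p.2
  have hp0 : (0 : ℝ) < ((p : ℕ) : ℝ) := by exact_mod_cast hpp.pos
  have hp1 : (1 : ℝ) < ((p : ℕ) : ℝ) := by exact_mod_cast hpp.one_lt
  have hs : Summable (fun e : ℕ => hh ((p : ℕ) ^ e)) :=
    hsum.comp_injective (Nat.pow_right_injective hpp.one_lt)
  have hv0 : 0 < ((p : ℕ) : ℝ) ^ (1 / 3 : ℝ) := Real.rpow_pos_of_pos hp0 _
  have hv1 : 1 < ((p : ℕ) : ℝ) ^ (1 / 3 : ℝ) := Real.one_lt_rpow hp1 (by norm_num)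
  have hv : (((p : ℕ) : ℝ) ^ (1 / 3 : ℝ)) ^ 3 = ((p : ℕ) : ℝ) := by
    rw [← vpow p 1 3 (by norm_num), Real.rpow_one]
  have e4 : ((p : ℕ) : ℝ) ^ (4 / 3 : ℝ) = (((p : ℕ) : ℝ) ^ (1 / 3 : ℝ)) ^ 4 :=
    vpow p _ 4 (by norm_num)
  have e5 : ((p : ℕ) : ℝ) ^ (5 / 3 : ℝ) = (((p : ℕ) : ℝ) ^ (1 / 3 : ℝ)) ^ 5 :=
    vpow p _ 5 (by norm_num)
  have hsplit := hs.sum_add_tsum_nat_add 2
  rw [← hsplit]
  have ht : ∑' a : ℕ, hh ((p : ℕ) ^ (a + 2)) =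
      3 * ((((p : ℕ) : ℝ) ^ (1 / 3 : ℝ)) ^ 2 - 1) / (((((p : ℕ) : ℝ) ^ (1 / 3 : ℝ)) ^ 3 + 1) *
      (((p : ℕ) : ℝ) ^ (1 / 3 : ℝ)) ^ 3) * (1 - (((p : ℕ) : ℝ) ^ (1 / 3 : ℝ))⁻¹)⁻¹ := by
    rw [← tsum_geometric_of_lt_one (inv_nonneg.mpr hv0.le) (inv_lt_one_of_one_lt₀ hv1),
      ← tsum_mul_left]
    exact tsum_congr (fun a => hh_prime_pow hGXE p hpp a)
  rw [ht, Finset.sum_range_succ, Finset.sum_range_succ, Finset.sum_range_zero, pow_zero, pow_one,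
    hh_one hGXE]
  have hp2 : hh (p : ℕ) = 0 := by
    unfold hh
    rw [(hGXE.2.2 p hpp).1]
    simp
  rw [hp2]
  unfold lf
  rw [e4, e5]
  set v := ((p : ℕ) : ℝ) ^ (1 / 3 : ℝ) with hvd
  rw [← hv]
  have hvne : v ≠ 0 := hv0.ne'
  have hv3 : v ^ 3 + 1 ≠ 0 := by positivity
  have hv11 : v - 1 ≠ 0 := by linarith
  have hin : (1 - v⁻¹)⁻¹ = v / (v - 1) := by
    rw [show 1 - v⁻¹ = (v - 1) / v by field_simp, inv_div]
  rw [hin]
  field_simp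
  ring

end Pool.Agent.H83.AS.EUL

namespace Pool.Agent.H83.AS

theorem pf_EUL (hKPE : T_KPE) (hGXE : T_GXE) (hCVG : T_CVG) : T_EUL := EUL.pf_EUL hKPE hGXE hCVG

end Pool.Agent.H83.AS
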