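import Mathlib
import Pool.Agent.H82.AS.Targets

/-!
# KPE: the density of coprimality
-/

set_option autoImplicit false

open Pool.Agent.H38.RB Pool.Agent.H38.PS Pool.Agent.H82.AS

namespace Pool.Agent.H83.AS

open ArithmeticFunction in
/-- the terms of `kp` -/
noncomputable def kf (D k : ℕ) : ℝ := (moebius k : ℝ) * (Nat.gcd k D : ℝ) / (k : ℝ) ^ 2

theorem kf_zero (D : ℕ) : kf D 0 = 0 := by simp [kf]

theorem kf_one (D : ℕ) : kf D 1 = 1 := by simp [kf]

theorem kf_mul (D : ℕ) {m n : ℕ} (h : m.Coprime n) : kf D (m * n) = kf D m * kf D n := by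
  have h1 : ArithmeticFunction.moebius (m * n) =
      ArithmeticFunction.moebius m * ArithmeticFunction.moebius n :=
    ArithmeticFunction.isMultiplicative_moebius.map_mul_of_coprime h
  have h2 : Nat.gcd (m * n) D = Nat.gcd m D * Nat.gcd n D := by
    rw [Nat.gcd_comm (m * n) D, Nat.Coprime.gcd_mul D h, Nat.gcd_comm D m, Nat.gcd_comm D n]
  unfold kf
  rw [h1, h2]
  push_cast
  rw [mul_pow, div_mul_div_comm]
  ring

theorem abs_mu_le (k : ℕ) : |(ArithmeticFunction.moebius k : ℝ)| ≤ 1 := by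
  have := ArithmeticFunction.abs_moebius_le_one (n := k)
  exact_mod_cast this

theorem kf_bound (D k : ℕ) (hD : 1 ≤ D) : ‖kf D k‖ ≤ (D : ℝ) * (1 / (k : ℝ) ^ 2) := by
  unfold kf
  rw [Real.norm_eq_abs, abs_div, abs_mul, abs_of_nonneg (show (0 : ℝ) ≤ (k : ℝ) ^ 2 by positivity),
    Nat.abs_cast, mul_one_div]
  have h1 : (Nat.gcd k D : ℝ) ≤ D := by exact_mod_cast Nat.gcd_le_right k hD
  have h2 := abs_mu_le k
  have h3 : |(ArithmeticFunction.moebius k : ℝ)| * (Nat.gcd k D : ℝ) ≤ 1 * (D : ℝ) := by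
    apply mul_le_mul h2 h1 (by positivity) (by norm_num)
  gcongr
  simpa using h3

theorem kf_summable (D : ℕ) (hD : 1 ≤ D) : Summable (fun k => ‖kf D k‖) := by
  refine Summable.of_nonneg_of_le (fun k => norm_nonneg _) (fun k => kf_bound D k hD) ?_
  exact (Real.summable_one_div_nat_pow.mpr (by norm_num)).mul_left _

theorem kf_local (D : ℕ) (p : Nat.Primes) : ∑' e : ℕ, kf D ((p : ℕ) ^ e) =
    1 - (Nat.gcd (p : ℕ) D : ℝ) / ((p : ℕ) : ℝ) ^ 2 := by
  have hp := p.2
  rw [tsum_eq_sum (s := Finset.range 2)]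
  · rw [Finset.sum_range_succ, Finset.sum_range_succ, Finset.sum_range_zero, pow_zero, pow_one,
      kf_one]
    unfold kf
    rw [ArithmeticFunction.moebius_apply_prime hp]
    push_cast
    ring
  · intro e he
    have he2 : 2 ≤ e := by
      by_contra hlt
      exact he (Finset.mem_range.mpr (by omega))
    unfold kf
    rw [ArithmeticFunction.moebius_apply_prime_pow hp (by omega), if_neg (by omega)]
    simp

theorem kp_hasProd (D : ℕ) (hD : 1 ≤ D) : HasProd (fun p : Nat.Primes =>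
    1 - (Nat.gcd (p : ℕ) D : ℝ) / ((p : ℕ) : ℝ) ^ 2) (kp D) := by
  have h := EulerProduct.eulerProduct_hasProd (f := kf D) (kf_one D) (fun {m n} h => kf_mul D h)
    (kf_summable D hD) (kf_zero D)
  have h2 : (∑' k : ℕ, kf D k) = kp D := rfl
  rw [h2] at h
  have h3 : (fun p : Nat.Primes => ∑' e : ℕ, kf D ((p : ℕ) ^ e)) = (fun p : Nat.Primes =>
    1 - (Nat.gcd (p : ℕ) D : ℝ) / ((p : ℕ) : ℝ) ^ 2) := by
    funext p
    exact kf_local D p
  rw [h3] at h
  exact h

theorem pf_KPE : T_KPE := by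
  have h1 : HasProd (fun p : Nat.Primes => 1 - 1 / ((p : ℕ) : ℝ) ^ 2) (kp 1) := by
    have h := kp_hasProd 1 le_rfl
    simpa using h
  refine ⟨h1, fun D hD => ?_⟩
  have h2 := kp_hasProd D hD
  set G : ℕ → ℝ := fun q => if q ∣ D then (q : ℝ) / (q + 1) else 1 with hG
  have h3 : HasProd (fun p : Nat.Primes => G p) (∏ q ∈ D.primeFactors, (q : ℝ) / (q + 1)) := by
    change HasProd (G ∘ Subtype.val (p := (· ∈ {x | Nat.Prime x}))) _
    rw [hasProd_subtype_iff_mulIndicator]
    have e1 : ∏ q ∈ D.primeFactors, (q : ℝ) / (q + 1) =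
        ∏ q ∈ D.primeFactors, Set.mulIndicator {x | Nat.Prime x} G q := by
      apply Finset.prod_congr rfl
      intro x hx
      have hx1 := (Nat.mem_primeFactors.mp hx).1
      rw [Set.mulIndicator_of_mem (show x ∈ {x | Nat.Prime x} from hx1)]
      simp only [hG]
      rw [if_pos (Nat.mem_primeFactors.mp hx).2.1]
    rw [e1]
    apply hasProd_prod_of_ne_finset_one
    intro q hq
    by_cases hqp : Nat.Prime q
    · rw [Set.mulIndicator_of_mem (show q ∈ {x | Nat.Prime x} from hqp)]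
      have : ¬ q ∣ D := by
        intro hd
        exact hq (Nat.mem_primeFactors.mpr ⟨hqp, hd, by omega⟩)
      simp only [hG]
      rw [if_neg this]
    · rw [Set.mulIndicator_of_notMem (show q ∉ {x | Nat.Prime x} from hqp)]
  have h5 := h1.mul h3
  have h6 : (fun p : Nat.Primes => (1 - 1 / ((p : ℕ) : ℝ) ^ 2) * G p) = (fun p : Nat.Primes =>
    1 - (Nat.gcd (p : ℕ) D : ℝ) / ((p : ℕ) : ℝ) ^ 2) := by
    funext p
    have hp0 : (0 : ℝ) < ((p : ℕ) : ℝ) := by exact_mod_cast p.2.pos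
    by_cases hd : (p : ℕ) ∣ D
    · rw [Nat.gcd_eq_left hd]
      simp only [hG]
      rw [if_pos hd]
      field_simp
      ring
    · have hc : Nat.gcd (p : ℕ) D = 1 := (Nat.Prime.coprime_iff_not_dvd p.2).mpr hd
      rw [hc]
      simp only [hG]
      rw [if_neg hd]
      push_cast
      ring
  rw [h6] at h5
  exact h2.unique h5

end Pool.Agent.H83.AS
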